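import Mathlib

namespace Pool.Agent.Results.MP_34e3ac_co.Nonsingular

open Finset Matrix

/-- The poset `L(m,n)`: partitions with at most `m` parts, each part at most `n`, with the
componentwise order. -/
abbrev L (m n : ℕ) : Type := {lam : Fin m → Fin (n + 1) // Antitone lam}

open scoped Classical in
/-- Real adjacency matrix of the Hasse diagram of `L(m,n)`. -/
noncomputable def adjL (m n : ℕ) : Matrix (L m n) (L m n) ℝ :=
  Matrix.of fun x y => if x ⋖ y ∨ y ⋖ x then 1 else 0

/-- Shifted positions of the parts. -/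
def X {m n : ℕ} (l : L m n) (a : Fin m) : ℤ := ((l.1 a : ℕ) : ℤ) + (m : ℤ) - ((a : ℕ) : ℤ)

lemma X_strictAnti {m n : ℕ} (l : L m n) : StrictAnti (X l) := by
  intro a b hab
  have h1 : l.1 b ≤ l.1 a := l.2 hab.le
  have h2 : ((l.1 b : ℕ) : ℤ) ≤ ((l.1 a : ℕ) : ℤ) := by exact_mod_cast h1
  have h3 : ((a : ℕ) : ℤ) < ((b : ℕ) : ℤ) := by exact_mod_cast hab
  unfold X
  linarith

lemma X_pos {m n : ℕ} (l : L m n) (a : Fin m) : 1 ≤ X l a := by
  have := a.2
  unfold X
  omega

lemma X_le {m n : ℕ} (l : L m n) (a : Fin m) : X l a ≤ ((m + n : ℕ) : ℤ) := by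
  have := (l.1 a).2
  unfold X
  push_cast
  omega

lemma X_injective {m n : ℕ} : Function.Injective (X : L m n → Fin m → ℤ) := by
  intro l k h
  apply Subtype.ext
  funext a
  have := congrFun h a
  unfold X at this
  apply Fin.ext
  omega

lemma strictAnti_add {m : ℕ} {y : Fin m → ℤ} (hy : StrictAnti y) (d : ℕ) :
    ∀ a b : Fin m, (b : ℕ) = a + d → y b + d ≤ y a := by
  induction d with
  | zero =>
    intro a b h
    have : b = a := Fin.ext (by simpa using h)
    subst this
    simp
  | succ d ih =>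
    intro a b h
    have hb := b.2
    have hc : (a : ℕ) + d < m := by omega
    have h1 := ih a ⟨a + d, hc⟩ rfl
    have h2 : y b < y ⟨a + d, hc⟩ := hy (by
      rw [Fin.lt_def]
      simp only
      omega)
    push_cast
    linarith

lemma exists_X {m n : ℕ} {y : Fin m → ℤ} (hy : StrictAnti y) (h1 : ∀ a, 1 ≤ y a)
    (h2 : ∀ a, y a ≤ ((m + n : ℕ) : ℤ)) : ∃ l : L m n, X l = y := by
  have hmono : ∀ a b : Fin m, a ≤ b → y b + (b : ℕ) ≤ y a + (a : ℕ) := by
    intro a b hab
    have hab' : (a : ℕ) ≤ b := hab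
    have := strictAnti_add hy ((b : ℕ) - a) a b (by omega)
    push_cast [Nat.cast_sub hab'] at this
    linarith
  have hlow : ∀ a : Fin m, (m : ℤ) ≤ y a + (a : ℕ) := by
    intro a
    have ha := a.2
    have := hmono a ⟨m - 1, by omega⟩ (by rw [Fin.le_def]; simp only; omega)
    have h3 := h1 ⟨m - 1, by omega⟩
    simp only at this
    have h4 : ((m - 1 : ℕ) : ℤ) = (m : ℤ) - 1 := by
      rw [Nat.cast_sub (by omega)]; simp
    rw [h4] at this
    linarith
  have hupp : ∀ a : Fin m, y a + (a : ℕ) ≤ ((m + n : ℕ) : ℤ) := by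
    intro a
    have ha := a.2
    have := hmono ⟨0, by omega⟩ a (by rw [Fin.le_def]; simp)
    have h3 := h2 ⟨0, by omega⟩
    simp only [Nat.cast_zero, add_zero] at this
    linarith
  refine ⟨⟨fun a => ⟨(y a + (a : ℕ) - m).toNat, ?_⟩, ?_⟩, ?_⟩
  · have := hlow a
    have := hupp a
    push_cast at this
    omega
  · intro a b hab
    rw [Fin.le_def]
    simp only
    have := hmono a b hab
    omega
  · funext a
    have := hlow a
    unfold X
    simp only
    omega

lemma covBy_iff {m n : ℕ} (l k : L m n) : l ⋖ k ↔ ∃ a, X k = X l + Pi.single a 1 := by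
  constructor
  · intro h
    have hlt : l < k := h.1
    have hle : ∀ a, l.1 a ≤ k.1 a := fun a => hlt.le a
    have hex : ∃ a, l.1 a < k.1 a := by
      by_contra hcon
      push Not at hcon
      exact absurd (Subtype.ext (funext fun a => le_antisymm (hle a) (hcon a))) hlt.ne
    -- smallest index
    classical
    let S : Finset (Fin m) := Finset.univ.filter fun a => l.1 a < k.1 a
    have hS : S.Nonempty := by
      obtain ⟨a, ha⟩ := hex
      exact ⟨a, by simp [S, ha]⟩
    obtain ⟨a, haS, hmin⟩ := S.exists_minimal hS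
    have ha : l.1 a < k.1 a := by simpa [S] using haS
    have hmin' : ∀ b, b < a → l.1 b = k.1 b := by
      intro b hb
      by_contra hne
      have : b ∈ S := by
        simp only [S, Finset.mem_filter, Finset.mem_univ, true_and]
        exact lt_of_le_of_ne (hle b) hne
      exact absurd (hmin this hb.le) (not_le.mpr hb)
    -- the intermediate partition
    have hva : ((l.1 a : ℕ)) + 1 < n + 1 := by
      have h1 : (l.1 a : ℕ) < k.1 a := ha
      have := (k.1 a).2
      omega
    let f : Fin m → Fin (n + 1) := Function.update l.1 a ⟨(l.1 a : ℕ) + 1, hva⟩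
    have hf : Antitone f := by
      intro b c hbc
      by_cases hca : c = a
      · subst hca
        by_cases hbc' : b = c
        · subst hbc'; exact le_rfl
        · have hlt' : b < c := lt_of_le_of_ne hbc hbc'
          simp only [f, Function.update_self, Function.update_of_ne hbc']
          rw [hmin' b hlt', Fin.le_def]
          have h1 : k.1 c ≤ k.1 b := k.2 hbc
          have h2 : (l.1 c : ℕ) < k.1 c := ha
          have h3 : (k.1 c : ℕ) ≤ k.1 b := h1
          simp only
          omega
      · by_cases hba : b = a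
        · subst hba
          simp only [f, Function.update_self, Function.update_of_ne hca]
          rw [Fin.le_def]
          have h1 : (l.1 c : ℕ) ≤ l.1 b := l.2 hbc
          simp only
          omega
        · simp only [f, Function.update_of_ne hca, Function.update_of_ne hba]
          exact l.2 hbc
    let z : L m n := ⟨f, hf⟩
    have hlz : l < z := by
      refine lt_of_le_of_ne ?_ ?_
      · intro b
        by_cases hb : b = a
        · subst hb
          simp only [z, f, Function.update_self]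
          rw [Fin.le_def]
          simp
        · simp only [z, f, Function.update_of_ne hb]
          exact le_rfl
      · intro heq
        have := congrFun (congrArg Subtype.val heq) a
        simp only [z, f, Function.update_self] at this
        have := congrArg Fin.val this
        simp at this
    have hzk : z ≤ k := by
      intro b
      by_cases hb : b = a
      · subst hb
        simp only [z, f, Function.update_self]
        rw [Fin.le_def]
        have h1 : (l.1 b : ℕ) < k.1 b := ha
        simp only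
        omega
      · simp only [z, f, Function.update_of_ne hb]
        exact hle b
    have hz : z = k := by
      by_contra hne
      exact h.2 hlz (lt_of_le_of_ne hzk hne)
    refine ⟨a, ?_⟩
    rw [← hz]
    funext b
    by_cases hb : b = a
    · subst hb
      simp only [X, z, f, Function.update_self, Pi.add_apply, Pi.single_eq_same]
      push_cast
      ring
    · simp only [X, z, f, Function.update_of_ne hb, Pi.add_apply, Pi.single_eq_of_ne hb]
      ring
  · rintro ⟨a, ha⟩
    have hval : ∀ b, ((k.1 b : ℕ) : ℤ) = (l.1 b : ℕ) + (if b = a then 1 else 0) := by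
      intro b
      have := congrFun ha b
      simp only [X, Pi.add_apply, Pi.single_apply] at this
      linarith
    constructor
    · refine lt_of_le_of_ne ?_ ?_
      · intro b
        rw [Fin.le_def]
        have := hval b
        split_ifs at this <;> omega
      · intro heq
        have := hval a
        rw [heq] at this
        simp at this
    · intro z hlz hzk
      have h1 : ∀ b, (l.1 b : ℕ) ≤ z.1 b := fun b => hlz.le b
      have h2 : ∀ b, (z.1 b : ℕ) ≤ k.1 b := fun b => hzk.le b
      by_cases hza : (z.1 a : ℕ) = l.1 a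
      · apply hlz.ne
        apply Subtype.ext
        funext b
        apply Fin.ext
        by_cases hb : b = a
        · subst hb; exact hza.symm
        · have := hval b
          rw [if_neg hb] at this
          have := h1 b
          have := h2 b
          omega
      · apply hzk.ne
        apply Subtype.ext
        funext b
        apply Fin.ext
        have := hval b
        by_cases hb : b = a
        · subst hb
          rw [if_pos rfl] at this
          have := h1 b
          have := h2 b
          omega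
        · rw [if_neg hb] at this
          have := h1 b
          have := h2 b
          omega

/-- Sine kernel. -/
noncomputable def s (N : ℕ) (x y : ℤ) : ℝ := Real.sin (Real.pi * x * y / (N + 1))

lemma s_symm (N : ℕ) (x y : ℤ) : s N x y = s N y x := by
  unfold s; congr 1; ring

lemma s_zero (N : ℕ) (x : ℤ) : s N x 0 = 0 := by
  unfold s; simp

lemma s_top (N : ℕ) (x : ℤ) : s N x (N + 1) = 0 := by
  unfold s
  have h : ((N : ℝ) + 1) ≠ 0 := by positivity
  have : Real.pi * x * ((N + 1 : ℤ) : ℝ) / (N + 1) = x * Real.pi := by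
    push_cast
    field_simp
  rw [this]
  exact Real.sin_int_mul_pi x

/-- Eigenvalue of the path. -/
noncomputable def ev (N : ℕ) (x : ℤ) : ℝ := 2 * Real.cos (Real.pi * x / (N + 1))

lemma s_rec (N : ℕ) (x y : ℤ) : s N x (y + 1) + s N x (y - 1) = ev N x * s N x y := by
  unfold s ev
  have e1 : Real.pi * x * ((y + 1 : ℤ) : ℝ) / (N + 1)
      = Real.pi * x * y / (N + 1) + Real.pi * x / (N + 1) := by
    push_cast; ring
  have e2 : Real.pi * x * ((y - 1 : ℤ) : ℝ) / (N + 1)
      = Real.pi * x * y / (N + 1) - Real.pi * x / (N + 1) := by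
    push_cast; ring
  rw [e1, e2, Real.sin_add, Real.sin_sub]
  ring

/-- Slater determinant. -/
noncomputable def D (N : ℕ) {m : ℕ} (j x : Fin m → ℤ) : ℝ :=
  Matrix.det (Matrix.of fun a b => s N (j b) (x a))

lemma D_symm (N : ℕ) {m : ℕ} (j x : Fin m → ℤ) : D N j x = D N x j := by
  unfold D
  rw [← Matrix.det_transpose]
  congr 1
  ext a b
  simp [Matrix.transpose_apply, s_symm]

lemma D_eq_zero_of_eq (N : ℕ) {m : ℕ} (j x : Fin m → ℤ) {a b : Fin m} (hab : a ≠ b)
    (h : x a = x b) : D N j x = 0 := by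
  unfold D
  apply Matrix.det_zero_of_row_eq hab
  funext c
  simp [h]

lemma D_eq_zero_of_zero (N : ℕ) {m : ℕ} (j x : Fin m → ℤ) {a : Fin m}
    (h : x a = 0) : D N j x = 0 := by
  unfold D
  apply Matrix.det_eq_zero_of_row_eq_zero a
  intro c
  simp [h, s_zero]

lemma D_eq_zero_of_top (N : ℕ) {m : ℕ} (j x : Fin m → ℤ) {a : Fin m}
    (h : x a = N + 1) : D N j x = 0 := by
  unfold D
  apply Matrix.det_eq_zero_of_row_eq_zero a
  intro c
  simp [h, s_top]

lemma sum_det_updateRow {m : ℕ} (M : Matrix (Fin m) (Fin m) ℝ) (c : Fin m → ℝ) :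
    ∑ a, (M.updateRow a (fun b => c b * M a b)).det = (∑ b, c b) * M.det := by
  simp only [Matrix.det_apply']
  rw [Finset.sum_comm, Finset.mul_sum]
  apply Finset.sum_congr rfl
  intro σ _
  have key : ∀ a, ∏ i, (M.updateRow a (fun b => c b * M a b)) (σ i) i
      = c (σ.symm a) * ∏ i, M (σ i) i := by
    intro a
    have h1 : ∀ i, (M.updateRow a (fun b => c b * M a b)) (σ i) i
        = (if i = σ.symm a then c i else 1) * M (σ i) i := by
      intro i
      by_cases hi : σ i = a
      · have : i = σ.symm a := by rw [← hi]; simp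
        rw [if_pos this, hi, Matrix.updateRow_self]
      · have : i ≠ σ.symm a := by
          intro h
          apply hi
          rw [h]; simp
        rw [if_neg this, Matrix.updateRow_ne hi, one_mul]
    rw [Finset.prod_congr rfl (fun i _ => h1 i), Finset.prod_mul_distrib]
    congr 1
    rw [Finset.prod_ite_eq' Finset.univ (σ.symm a) c]
    simp
  rw [Finset.sum_congr rfl (fun a _ => by rw [key a])]
  rw [← Finset.mul_sum, ← Finset.sum_mul, Equiv.sum_comp σ.symm c]
  ring

lemma D_harmonic (N : ℕ) {m : ℕ} (j x : Fin m → ℤ) :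
    ∑ a, (D N j (x + Pi.single a 1) + D N j (x - Pi.single a 1))
      = (∑ b, ev N (j b)) * D N j x := by
  unfold D
  rw [← sum_det_updateRow]
  apply Finset.sum_congr rfl
  intro a _
  set M : Matrix (Fin m) (Fin m) ℝ := Matrix.of fun a b => s N (j b) (x a) with hM
  have e1 : (Matrix.of fun a' b => s N (j b) ((x + Pi.single a 1 : Fin m → ℤ) a'))
      = M.updateRow a (fun b => s N (j b) (x a + 1)) := by
    ext a' b
    by_cases h : a' = a
    · subst h
      simp
    · simp [h, hM]
  have e2 : (Matrix.of fun a' b => s N (j b) ((x - Pi.single a 1 : Fin m → ℤ) a'))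
      = M.updateRow a (fun b => s N (j b) (x a - 1)) := by
    ext a' b
    by_cases h : a' = a
    · subst h
      simp
    · simp [h, hM]
  rw [e1, e2, ← Matrix.det_updateRow_add]
  congr 2
  funext b
  simp only [Pi.add_apply, hM, Matrix.of_apply]
  exact s_rec N (j b) (x a)

open scoped Classical in
lemma adjL_apply {m n : ℕ} (l k : L m n) :
    adjL m n l k = ∑ a, ((if X k = X l + Pi.single a 1 then (1 : ℝ) else 0)
      + (if X k = X l - Pi.single a 1 then (1 : ℝ) else 0)) := by
  have hinj : ∀ a b : Fin m, (Pi.single a 1 : Fin m → ℤ) = Pi.single b 1 → a = b := by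
    intro a b h
    by_contra hne
    have := congrFun h a
    rw [Pi.single_eq_same, Pi.single_eq_of_ne hne] at this
    exact one_ne_zero this
  have hneg : ∀ a b : Fin m, (Pi.single a 1 : Fin m → ℤ) ≠ - Pi.single b 1 := by
    intro a b h
    have := congrFun h a
    rw [Pi.single_eq_same, Pi.neg_apply] at this
    by_cases hab : a = b
    · subst hab
      rw [Pi.single_eq_same] at this
      norm_num at this
    · rw [Pi.single_eq_of_ne hab] at this
      norm_num at this
  have hdown : ∀ b : Fin m, X l = X k + Pi.single b 1 ↔ X k = X l - Pi.single b 1 := by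
    intro b
    constructor
    · intro h; rw [h]; simp
    · intro h; rw [h]; simp
  unfold adjL
  simp only [Matrix.of_apply]
  by_cases h1 : l ⋖ k
  · rw [if_pos (Or.inl h1)]
    obtain ⟨a, ha⟩ := (covBy_iff l k).mp h1
    rw [Finset.sum_eq_single a]
    · rw [if_pos ha, if_neg, add_zero]
      intro h
      rw [ha] at h
      apply hneg a a
      have : X l + Pi.single a 1 = X l + (- Pi.single a 1) := by rw [h]; ring
      exact add_left_cancel this
    · intro b _ hb
      rw [if_neg, if_neg, add_zero]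
      · intro h
        rw [ha] at h
        apply hneg a b
        have : X l + Pi.single a 1 = X l + (- Pi.single b 1) := by rw [h]; ring
        exact add_left_cancel this
      · intro h
        rw [ha] at h
        exact hb (hinj _ _ (add_left_cancel h)).symm
    · intro h; exact absurd (Finset.mem_univ a) h
  · by_cases h2 : k ⋖ l
    · rw [if_pos (Or.inr h2)]
      obtain ⟨a, ha⟩ := (covBy_iff k l).mp h2
      have ha' := (hdown a).mp ha
      rw [Finset.sum_eq_single a]
      · rw [if_neg, if_pos ha', zero_add]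
        intro h
        exact h1 ((covBy_iff l k).mpr ⟨a, h⟩)
      · intro b _ hb
        rw [if_neg, if_neg, add_zero]
        · intro h
          rw [ha'] at h
          apply hb
          apply hinj
          have : X l + (- Pi.single a 1) = X l + (- Pi.single b 1) := by
            rw [← sub_eq_add_neg, h, sub_eq_add_neg]
          exact (neg_injective (add_left_cancel this)).symm
        · intro h
          exact h1 ((covBy_iff l k).mpr ⟨b, h⟩)
      · intro h; exact absurd (Finset.mem_univ a) h
    · rw [if_neg (by push Not; exact ⟨h1, h2⟩)]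
      symm
      apply Finset.sum_eq_zero
      intro b _
      rw [if_neg, if_neg, add_zero]
      · intro h
        exact h2 ((covBy_iff k l).mpr ⟨b, (hdown b).mpr h⟩)
      · intro h
        exact h1 ((covBy_iff l k).mpr ⟨b, h⟩)

open scoped Classical in
lemma sum_X_eq {m n : ℕ} (j y : Fin m → ℤ)
    (h : D (m + n) j y = 0 ∨ ∃ l : L m n, X l = y) :
    ∑ k : L m n, (if X k = y then (1 : ℝ) else 0) * D (m + n) j (X k) = D (m + n) j y := by
  by_cases hex : ∃ l : L m n, X l = y
  · obtain ⟨l, hl⟩ := hex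
    rw [Finset.sum_eq_single l]
    · rw [if_pos hl, one_mul, hl]
    · intro b _ hb
      rw [if_neg, zero_mul]
      intro h2
      exact hb (X_injective (h2.trans hl.symm))
    · intro h; exact absurd (Finset.mem_univ l) h
  · have h0 : D (m + n) j y = 0 := by
      rcases h with h | h
      · exact h
      · exact absurd h hex
    rw [h0]
    apply Finset.sum_eq_zero
    intro k _
    rw [if_neg, zero_mul]
    intro h2
    exact hex ⟨k, h2⟩

lemma up_cases {m n : ℕ} (j : Fin m → ℤ) (l : L m n) (a : Fin m) :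
    D (m + n) j (X l + Pi.single a 1) = 0 ∨ ∃ k : L m n, X k = X l + Pi.single a 1 := by
  by_cases htop : X l a = (m + n : ℕ)
  · left
    apply D_eq_zero_of_top (m + n) j _ (a := a)
    simp only [Pi.add_apply, Pi.single_eq_same, htop]
  by_cases hcol : ∃ b, b ≠ a ∧ X l b = X l a + 1
  · left
    obtain ⟨b, hb, hb2⟩ := hcol
    apply D_eq_zero_of_eq (m + n) j _ hb
    simp only [Pi.add_apply, Pi.single_eq_same, Pi.single_eq_of_ne hb, hb2, add_zero]
  right
  push Not at hcol
  have hanti := X_strictAnti l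
  apply exists_X
  · intro b c hbc
    have h1 := hanti hbc
    by_cases hca : c = a
    · subst hca
      have hb : b ≠ c := hbc.ne
      simp only [Pi.add_apply, Pi.single_eq_same, Pi.single_eq_of_ne hb]
      have := hcol b hb
      omega
    · by_cases hba : b = a
      · subst hba
        simp only [Pi.add_apply, Pi.single_eq_same, Pi.single_eq_of_ne hca]
        omega
      · simp only [Pi.add_apply, Pi.single_eq_of_ne hca, Pi.single_eq_of_ne hba]
        omega
  · intro b
    have := X_pos l b
    by_cases hba : b = a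
    · subst hba
      simp only [Pi.add_apply, Pi.single_eq_same]
      omega
    · simp only [Pi.add_apply, Pi.single_eq_of_ne hba]
      omega
  · intro b
    have := X_le l b
    by_cases hba : b = a
    · subst hba
      simp only [Pi.add_apply, Pi.single_eq_same]
      omega
    · simp only [Pi.add_apply, Pi.single_eq_of_ne hba]
      omega

lemma down_cases {m n : ℕ} (j : Fin m → ℤ) (l : L m n) (a : Fin m) :
    D (m + n) j (X l - Pi.single a 1) = 0 ∨ ∃ k : L m n, X k = X l - Pi.single a 1 := by
  by_cases htop : X l a = 1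
  · left
    apply D_eq_zero_of_zero (m + n) j _ (a := a)
    simp only [Pi.sub_apply, Pi.single_eq_same, htop, sub_self]
  by_cases hcol : ∃ b, b ≠ a ∧ X l b = X l a - 1
  · left
    obtain ⟨b, hb, hb2⟩ := hcol
    apply D_eq_zero_of_eq (m + n) j _ hb
    simp only [Pi.sub_apply, Pi.single_eq_same, Pi.single_eq_of_ne hb, hb2, sub_zero]
  right
  push Not at hcol
  have hanti := X_strictAnti l
  apply exists_X
  · intro b c hbc
    have h1 := hanti hbc
    by_cases hca : c = a
    · subst hca
      have hb : b ≠ c := hbc.ne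
      simp only [Pi.sub_apply, Pi.single_eq_same, Pi.single_eq_of_ne hb]
      omega
    · by_cases hba : b = a
      · subst hba
        simp only [Pi.sub_apply, Pi.single_eq_same, Pi.single_eq_of_ne hca]
        have := hcol c hca
        omega
      · simp only [Pi.sub_apply, Pi.single_eq_of_ne hca, Pi.single_eq_of_ne hba]
        omega
  · intro b
    have := X_pos l b
    by_cases hba : b = a
    · subst hba
      simp only [Pi.sub_apply, Pi.single_eq_same]
      omega
    · simp only [Pi.sub_apply, Pi.single_eq_of_ne hba]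
      omega
  · intro b
    have := X_le l b
    by_cases hba : b = a
    · subst hba
      simp only [Pi.sub_apply, Pi.single_eq_same]
      omega
    · simp only [Pi.sub_apply, Pi.single_eq_of_ne hba]
      omega

/-- The Slater determinants are eigenvectors. -/
lemma adjL_mulVec {m n : ℕ} (j : Fin m → ℤ) :
    (adjL m n).mulVec (fun k => D (m + n) j (X k))
      = fun l => (∑ b, ev (m + n) (j b)) * D (m + n) j (X l) := by
  classical
  funext l
  rw [← D_harmonic]
  simp only [Matrix.mulVec, dotProduct, adjL_apply, Finset.sum_mul, add_mul]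
  rw [Finset.sum_comm]
  apply Finset.sum_congr rfl
  intro a _
  rw [Finset.sum_add_distrib, sum_X_eq j _ (up_cases j l a), sum_X_eq j _ (down_cases j l a)]

lemma adjL_symm {m n : ℕ} : (adjL m n).transpose = adjL m n := by
  ext l k
  unfold adjL
  simp only [Matrix.transpose_apply, Matrix.of_apply]
  by_cases h1 : l ⋖ k <;> by_cases h2 : k ⋖ l <;> simp [h1, h2]

lemma sum_shift (N : ℕ) (f g : ℤ → ℝ) (hf0 : f 0 = 0) (hgN : g (N + 1) = 0) :
    ∑ y ∈ Finset.Icc (1 : ℤ) N, f (y - 1) * g y = ∑ y ∈ Finset.Icc (1 : ℤ) N, f y * g (y + 1) := by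
  have h1 : ∑ y ∈ Finset.Icc (1 : ℤ) N, f (y - 1) * g y
      = ∑ y ∈ Finset.Icc (1 : ℤ) (N + 1), f (y - 1) * g y := by
    apply Finset.sum_subset
    · intro y hy
      simp only [Finset.mem_Icc] at hy ⊢
      omega
    · intro y hy hy2
      simp only [Finset.mem_Icc] at hy hy2
      have : y = N + 1 := by omega
      rw [this, hgN, mul_zero]
  have h2 : ∑ y ∈ Finset.Icc (1 : ℤ) N, f y * g (y + 1)
      = ∑ y ∈ Finset.Icc (0 : ℤ) N, f y * g (y + 1) := by
    apply Finset.sum_subset
    · intro y hy
      simp only [Finset.mem_Icc] at hy ⊢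
      omega
    · intro y hy hy2
      simp only [Finset.mem_Icc] at hy hy2
      have : y = 0 := by omega
      rw [this, hf0, zero_mul]
  rw [h1, h2]
  refine Finset.sum_bij' (fun y _ => y - 1) (fun y _ => y + 1) ?_ ?_ ?_ ?_ ?_
  · intro y hy
    simp only [Finset.mem_Icc] at hy ⊢
    omega
  · intro y hy
    simp only [Finset.mem_Icc] at hy ⊢
    omega
  · intro y _; ring
  · intro y _; ring
  · intro y _
    simp

lemma ev_injOn (N : ℕ) {x y : ℤ} (hx : 1 ≤ x) (hx2 : x ≤ N) (hy : 1 ≤ y) (hy2 : y ≤ N)
    (h : ev N x = ev N y) : x = y := by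
  unfold ev at h
  have hN : (0 : ℝ) < (N : ℝ) + 1 := by positivity
  have hc : Real.cos (Real.pi * x / (N + 1)) = Real.cos (Real.pi * y / (N + 1)) := by linarith
  have hmem : ∀ z : ℤ, 1 ≤ z → z ≤ N → Real.pi * z / (N + 1) ∈ Set.Icc 0 Real.pi := by
    intro z h1 h2
    have h1' : (1 : ℝ) ≤ z := by exact_mod_cast h1
    have h2' : (z : ℝ) ≤ N := by exact_mod_cast h2
    have hpi := Real.pi_pos
    constructor
    · positivity
    · rw [div_le_iff₀ hN]
      apply mul_le_mul_of_nonneg_left _ hpi.le
      linarith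
  have := Real.injOn_cos (hmem x hx hx2) (hmem y hy hy2) hc
  have hpi := Real.pi_pos
  field_simp at this
  exact_mod_cast this

/-- Orthogonality of the sine vectors. -/
lemma s_orth (N : ℕ) {x y : ℤ} (hx : 1 ≤ x) (hx2 : x ≤ N) (hy : 1 ≤ y) (hy2 : y ≤ N)
    (hne : x ≠ y) : ∑ z ∈ Finset.Icc (1 : ℤ) N, s N x z * s N y z = 0 := by
  have hcalc : ev N x * ∑ z ∈ Finset.Icc (1 : ℤ) N, s N x z * s N y z
      = ev N y * ∑ z ∈ Finset.Icc (1 : ℤ) N, s N x z * s N y z := by
    have e1 : ev N x * ∑ z ∈ Finset.Icc (1 : ℤ) N, s N x z * s N y z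
        = ∑ z ∈ Finset.Icc (1 : ℤ) N, s N x (z + 1) * s N y z
          + ∑ z ∈ Finset.Icc (1 : ℤ) N, s N x (z - 1) * s N y z := by
      rw [Finset.mul_sum, ← Finset.sum_add_distrib]
      apply Finset.sum_congr rfl
      intro z _
      rw [← mul_assoc, ← s_rec]
      ring
    have e2 : ev N y * ∑ z ∈ Finset.Icc (1 : ℤ) N, s N x z * s N y z
        = ∑ z ∈ Finset.Icc (1 : ℤ) N, s N x z * s N y (z + 1)
          + ∑ z ∈ Finset.Icc (1 : ℤ) N, s N x z * s N y (z - 1) := by
      rw [Finset.mul_sum, ← Finset.sum_add_distrib]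
      apply Finset.sum_congr rfl
      intro z _
      have := s_rec N y z
      calc ev N y * (s N x z * s N y z) = s N x z * (ev N y * s N y z) := by ring
        _ = s N x z * (s N y (z + 1) + s N y (z - 1)) := by rw [← this]
        _ = _ := by ring
    have e3 := sum_shift N (fun z => s N x z) (fun z => s N y z) (s_zero N x) (s_top N y)
    have e4 := sum_shift N (fun z => s N y z) (fun z => s N x z) (s_zero N y) (s_top N x)
    have e5 : ∑ z ∈ Finset.Icc (1 : ℤ) N, s N x z * s N y (z - 1)
        = ∑ z ∈ Finset.Icc (1 : ℤ) N, s N x (z + 1) * s N y z := by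
      have : ∀ z ∈ Finset.Icc (1 : ℤ) N, s N x z * s N y (z - 1) = s N y (z - 1) * s N x z :=
        fun z _ => by ring
      rw [Finset.sum_congr rfl this, e4]
      apply Finset.sum_congr rfl
      intro z _
      ring
    rw [e1, e2, e3, e5]
    ring
  by_contra hS
  exact hne (ev_injOn N hx hx2 hy hy2 (mul_right_cancel₀ hS hcalc))

lemma s_norm_pos (N : ℕ) {x : ℤ} (hx : 1 ≤ x) (hx2 : x ≤ N) :
    0 < ∑ z ∈ Finset.Icc (1 : ℤ) N, s N x z * s N x z := by
  apply Finset.sum_pos'
  · intro z _
    exact mul_self_nonneg _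
  · refine ⟨1, ?_, ?_⟩
    · simp only [Finset.mem_Icc]
      omega
    · have hN : (0 : ℝ) < (N : ℝ) + 1 := by positivity
      have h1' : (1 : ℝ) ≤ x := by exact_mod_cast hx
      have h2' : (x : ℝ) ≤ N := by exact_mod_cast hx2
      have hpi := Real.pi_pos
      have : 0 < s N x 1 := by
        unfold s
        apply Real.sin_pos_of_pos_of_lt_pi
        · push_cast
          positivity
        · rw [div_lt_iff₀ hN]
          push_cast
          have : (x : ℝ) < N + 1 := by linarith
          nlinarith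
      exact mul_pos this this

/-- If `g` is orthogonal to all Slater vectors then it vanishes. -/
lemma eq_zero_of_orth {m n : ℕ} (g : L m n → ℝ)
    (h : ∀ k : L m n, ∑ l : L m n, g l * D (m + n) (X k) (X l) = 0) : g = 0 := by
  classical
  -- first extend to all tuples
  have hall : ∀ j ∈ Fintype.piFinset (fun _ : Fin m => Finset.Icc (1 : ℤ) ((m + n : ℕ) : ℤ)),
      ∑ l : L m n, g l * D (m + n) j (X l) = 0 := by
    intro j hj
    rw [Fintype.mem_piFinset] at hj
    by_cases hinj : Function.Injective j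
    · -- sort
      let σ : Equiv.Perm (Fin m) := Tuple.sort (fun a => - j a)
      have hσ : Monotone ((fun a => - j a) ∘ σ) := Tuple.monotone_sort _
      have hanti : StrictAnti (j ∘ σ) := by
        intro a b hab
        have h1 := hσ hab.le
        simp only [Function.comp] at h1 ⊢
        have h2 : j (σ a) ≠ j (σ b) := by
          intro h
          exact hab.ne (σ.injective (hinj h))
        omega
      obtain ⟨k, hk⟩ := exists_X (m := m) (n := n) hanti
        (fun a => (Finset.mem_Icc.mp (hj (σ a))).1) (fun a => (Finset.mem_Icc.mp (hj (σ a))).2)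
      have hD : ∀ l : L m n, D (m + n) (X k) (X l)
          = ((Equiv.Perm.sign σ : ℤ) : ℝ) * D (m + n) j (X l) := by
        intro l
        rw [hk]
        unfold D
        rw [← Matrix.det_permute' σ]
        rfl
      have hk2 := h k
      simp only [hD] at hk2
      have h3 : ((Equiv.Perm.sign σ : ℤ) : ℝ) * ∑ l : L m n, g l * D (m + n) j (X l) = 0 := by
        rw [← hk2, Finset.mul_sum]
        apply Finset.sum_congr rfl
        intro l _
        ring
      rcases mul_eq_zero.mp h3 with h4 | h4
      · exfalso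
        rcases Int.units_eq_one_or (Equiv.Perm.sign σ) with h5 | h5 <;> simp [h5] at h4
      · exact h4
    · rw [Function.not_injective_iff] at hinj
      obtain ⟨a, b, hab, hne⟩ := hinj
      apply Finset.sum_eq_zero
      intro l _
      rw [D_symm, D_eq_zero_of_eq (m + n) (X l) j hne hab, mul_zero]
  funext k
  have hsum : ∑ j ∈ Fintype.piFinset (fun _ : Fin m => Finset.Icc (1 : ℤ) ((m + n : ℕ) : ℤ)),
      (∏ b, s (m + n) (X k b) (j b)) * ∑ l : L m n, g l * D (m + n) j (X l) = 0 := by
    apply Finset.sum_eq_zero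
    intro j hj
    rw [hall j hj, mul_zero]
  have hexp : ∀ l : L m n,
      ∑ j ∈ Fintype.piFinset (fun _ : Fin m => Finset.Icc (1 : ℤ) ((m + n : ℕ) : ℤ)),
        (∏ b, s (m + n) (X k b) (j b)) * D (m + n) j (X l)
      = ∑ σ : Equiv.Perm (Fin m), ((Equiv.Perm.sign σ : ℤ) : ℝ) *
        ∏ b, ∑ z ∈ Finset.Icc (1 : ℤ) ((m + n : ℕ) : ℤ),
          s (m + n) (X k b) z * s (m + n) (X l (σ b)) z := by
    intro l
    simp only [D, Matrix.det_apply', Matrix.of_apply, Finset.mul_sum]
    rw [Finset.sum_comm]
    apply Finset.sum_congr rfl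
    intro σ _
    rw [Finset.prod_univ_sum, Finset.mul_sum]
    apply Finset.sum_congr rfl
    intro j _
    rw [mul_left_comm, ← Finset.prod_mul_distrib]
    congr 1
    apply Finset.prod_congr rfl
    intro b _
    rw [s_symm (m + n) (X l (σ b))]
  have hzero : ∀ l : L m n, ∀ σ : Equiv.Perm (Fin m), ¬ (l = k ∧ σ = 1) →
      ∏ b, ∑ z ∈ Finset.Icc (1 : ℤ) ((m + n : ℕ) : ℤ),
          s (m + n) (X k b) z * s (m + n) (X l (σ b)) z = 0 := by
    intro l σ hne
    by_contra hprod
    apply hne
    have hb : ∀ b, X k b = X l (σ b) := by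
      intro b
      by_contra hXne
      apply hprod
      apply Finset.prod_eq_zero (Finset.mem_univ b)
      exact s_orth (m + n) (X_pos k b) (X_le k b) (X_pos l (σ b)) (X_le l (σ b)) hXne
    -- σ is monotone
    have hmono : StrictMono σ := by
      intro a b hab
      have h1 := X_strictAnti k hab
      rw [hb a, hb b] at h1
      exact (X_strictAnti l).lt_iff_gt.mp h1
    have hσ : σ = 1 := (Equiv.Perm.monotone_iff σ).mp hmono.monotone
    refine ⟨?_, hσ⟩
    apply X_injective
    funext b
    rw [hb b, hσ]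
    rfl
  have hfin : ∑ j ∈ Fintype.piFinset (fun _ : Fin m => Finset.Icc (1 : ℤ) ((m + n : ℕ) : ℤ)),
      (∏ b, s (m + n) (X k b) (j b)) * ∑ l : L m n, g l * D (m + n) j (X l)
      = g k * ∏ b, ∑ z ∈ Finset.Icc (1 : ℤ) ((m + n : ℕ) : ℤ),
          s (m + n) (X k b) z * s (m + n) (X k b) z := by
    have e1 : ∑ j ∈ Fintype.piFinset (fun _ : Fin m => Finset.Icc (1 : ℤ) ((m + n : ℕ) : ℤ)),
      (∏ b, s (m + n) (X k b) (j b)) * ∑ l : L m n, g l * D (m + n) j (X l)
      = ∑ l : L m n, g l * ∑ j ∈ Fintype.piFinset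
          (fun _ : Fin m => Finset.Icc (1 : ℤ) ((m + n : ℕ) : ℤ)),
          (∏ b, s (m + n) (X k b) (j b)) * D (m + n) j (X l) := by
      simp only [Finset.mul_sum]
      rw [Finset.sum_comm]
      apply Finset.sum_congr rfl
      intro l _
      apply Finset.sum_congr rfl
      intro j _
      ring
    rw [e1]
    simp only [hexp]
    rw [Finset.sum_eq_single k]
    · congr 1
      rw [Finset.sum_eq_single 1]
      · simp
      · intro σ _ hσ
        rw [hzero k σ (fun h => hσ h.2), mul_zero]
      · intro h; exact absurd (Finset.mem_univ _) h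
    · intro l _ hl
      rw [Finset.sum_eq_zero, mul_zero]
      intro σ _
      rw [hzero l σ (fun h => hl h.1), mul_zero]
    · intro h; exact absurd (Finset.mem_univ _) h
  rw [hfin] at hsum
  rcases mul_eq_zero.mp hsum with h1 | h1
  · simpa using h1
  · exfalso
    have : 0 < ∏ b, ∑ z ∈ Finset.Icc (1 : ℤ) ((m + n : ℕ) : ℤ),
          s (m + n) (X k b) z * s (m + n) (X k b) z := by
      apply Finset.prod_pos
      intro b _
      exact s_norm_pos (m + n) (X_pos k b) (X_le k b)
    exact this.ne' h1

/-- The determinant vanishes iff some `m`-subset of the path eigenvalues sums to zero. -/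
lemma det_eq_zero_iff {m n : ℕ} :
    (adjL m n).det = 0 ↔ ∃ k : L m n, ∑ b, ev (m + n) (X k b) = 0 := by
  classical
  constructor
  · intro hdet
    by_contra hcon
    push Not at hcon
    obtain ⟨g, hg, hAg⟩ := Matrix.exists_mulVec_eq_zero_iff.mpr hdet
    apply hg
    apply eq_zero_of_orth
    intro k
    have h1 : g ⬝ᵥ (adjL m n).mulVec (fun l => D (m + n) (X k) (X l)) = 0 := by
      rw [Matrix.dotProduct_mulVec, ← Matrix.mulVec_transpose, adjL_symm, hAg, zero_dotProduct]
    rw [adjL_mulVec] at h1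
    have h2 : (∑ b, ev (m + n) (X k b)) * ∑ l : L m n, g l * D (m + n) (X k) (X l) = 0 := by
      rw [← h1]
      simp only [dotProduct, Finset.mul_sum]
      apply Finset.sum_congr rfl
      intro l _
      ring
    rcases mul_eq_zero.mp h2 with h3 | h3
    · exact absurd h3 (hcon k)
    · exact h3
  · rintro ⟨k, hk⟩
    rw [← Matrix.exists_mulVec_eq_zero_iff]
    refine ⟨fun l => D (m + n) (X k) (X l), ?_, ?_⟩
    · intro h0
      have h1 : (Pi.single k 1 : L m n → ℝ) = 0 := by
        apply eq_zero_of_orth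
        intro l
        rw [Finset.sum_eq_single k]
        · rw [D_symm, congrFun h0 l]
          simp
        · intro b _ hb
          rw [Pi.single_eq_of_ne hb, zero_mul]
        · intro h; exact absurd (Finset.mem_univ _) h
      have := congrFun h1 k
      simp at this
    · rw [adjL_mulVec, hk]
      funext l
      simp

/-- There are `m` distinct indices in `1, ..., N` whose cosines `cos (π j / (N+1))` sum to zero. -/
def Z (N m : ℕ) : Prop :=
  ∃ J : Finset ℕ, J ⊆ Finset.Icc 1 N ∧ J.card = m ∧
    ∑ j ∈ J, Real.cos (Real.pi * j / (N + 1)) = 0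

lemma exists_sum_iff_Z {m n : ℕ} :
    (∃ k : L m n, ∑ b, ev (m + n) (X k b) = 0) ↔ Z (m + n) m := by
  constructor
  · rintro ⟨k, hk⟩
    have hinj : Function.Injective (fun b => (X k b).toNat) := by
      intro a b hab
      have h1 := X_pos k a
      have h2 := X_pos k b
      simp only at hab
      exact (X_strictAnti k).injective (by omega)
    refine ⟨Finset.univ.image (fun b => (X k b).toNat), ?_, ?_, ?_⟩
    · intro j hj
      rw [Finset.mem_image] at hj
      obtain ⟨b, _, rfl⟩ := hj
      have h1 := X_pos k b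
      have h2 := X_le k b
      rw [Finset.mem_Icc]
      omega
    · rw [Finset.card_image_of_injective _ hinj]
      simp
    · rw [Finset.sum_image (fun a _ b _ h => hinj h)]
      have : ∀ b, ev (m + n) (X k b)
          = 2 * Real.cos (Real.pi * ((X k b).toNat : ℕ) / (((m + n : ℕ) : ℝ) + 1)) := by
        intro b
        have h1 := X_pos k b
        unfold ev
        have : ((X k b : ℤ) : ℝ) = (((X k b).toNat : ℕ) : ℝ) := by
          have h3 : (X k b) = (((X k b).toNat : ℕ) : ℤ) := by omega
          exact_mod_cast congrArg (Int.cast : ℤ → ℝ) h3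
        rw [this]
      simp only [this] at hk
      rw [← Finset.mul_sum] at hk
      linarith
  · rintro ⟨J, hJ, hcard, hsum⟩
    have hanti : StrictAnti (fun a : Fin m => ((J.orderEmbOfFin hcard (Fin.rev a) : ℕ) : ℤ)) := by
      intro a b hab
      simp only
      have : J.orderEmbOfFin hcard (Fin.rev b) < J.orderEmbOfFin hcard (Fin.rev a) := by
        apply (J.orderEmbOfFin hcard).strictMono
        exact Fin.rev_lt_rev.mpr hab
      exact_mod_cast this
    have hmem : ∀ a : Fin m, J.orderEmbOfFin hcard (Fin.rev a) ∈ Finset.Icc 1 (m + n) :=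
      fun a => hJ (J.orderEmbOfFin_mem hcard _)
    obtain ⟨k, hk⟩ := exists_X (m := m) (n := n) hanti
      (fun a => by
        have := (Finset.mem_Icc.mp (hmem a)).1
        exact_mod_cast this)
      (fun a => by
        have := (Finset.mem_Icc.mp (hmem a)).2
        exact_mod_cast this)
    refine ⟨k, ?_⟩
    rw [hk]
    have e1 : ∑ b : Fin m, ev (m + n) ((J.orderEmbOfFin hcard (Fin.rev b) : ℕ) : ℤ)
        = ∑ b : Fin m, ev (m + n) ((J.orderEmbOfFin hcard b : ℕ) : ℤ) :=
      Equiv.sum_comp Fin.revPerm (fun b => ev (m + n) ((J.orderEmbOfFin hcard b : ℕ) : ℤ))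
    rw [e1]
    have e2 : ∑ j ∈ J, ev (m + n) (j : ℤ)
        = ∑ b : Fin m, ev (m + n) ((J.orderEmbOfFin hcard b : ℕ) : ℤ) := by
      conv_lhs => rw [← J.image_orderEmbOfFin_univ hcard]
      rw [Finset.sum_image (fun a _ b _ h => (J.orderEmbOfFin hcard).injective h)]
    rw [← e2]
    unfold ev
    rw [← Finset.mul_sum]
    have : ∑ i ∈ J, Real.cos (Real.pi * ((i : ℤ) : ℝ) / (((m + n : ℕ) : ℝ) + 1)) = 0 := by
      rw [← hsum]
      apply Finset.sum_congr rfl
      intro j _
      simp
    rw [this, mul_zero]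

lemma symm_sum (N : ℕ) (J : Finset ℕ) (h : ∀ j ∈ J, 1 ≤ j ∧ j ≤ N ∧ N + 1 - j ∈ J) :
    ∑ j ∈ J, Real.cos (Real.pi * j / (N + 1)) = 0 := by
  have hN : ((N : ℝ) + 1) ≠ 0 := by positivity
  have h1 : ∑ j ∈ J, Real.cos (Real.pi * j / (N + 1))
      = ∑ j ∈ J, - Real.cos (Real.pi * j / (N + 1)) := by
    refine Finset.sum_bij' (fun j _ => N + 1 - j) (fun j _ => N + 1 - j) ?_ ?_ ?_ ?_ ?_
    · intro j hj; exact (h j hj).2.2
    · intro j hj; exact (h j hj).2.2
    · intro j hj
      have := h j hj
      omega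
    · intro j hj
      have := h j hj
      omega
    · intro j hj
      obtain ⟨h1, h2, _⟩ := h j hj
      rw [Nat.cast_sub (by omega)]
      have : Real.pi * (((N + 1 : ℕ) : ℝ) - j) / (N + 1)
          = Real.pi - Real.pi * j / (N + 1) := by
        push_cast
        field_simp
      rw [this, Real.cos_pi_sub]
      ring
  rw [Finset.sum_neg_distrib] at h1
  linarith

lemma Z_compl {N m : ℕ} (h : Z N m) : Z N (N - m) := by
  obtain ⟨J, hJ, hcard, hsum⟩ := h
  refine ⟨Finset.Icc 1 N \ J, Finset.sdiff_subset, ?_, ?_⟩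
  · rw [Finset.card_sdiff_of_subset hJ, hcard]
    simp
  · have h1 := Finset.sum_sdiff hJ (f := fun j : ℕ => Real.cos (Real.pi * j / (N + 1)))
    have h2 : ∑ j ∈ Finset.Icc 1 N, Real.cos (Real.pi * j / (N + 1)) = 0 := by
      apply symm_sum
      intro j hj
      rw [Finset.mem_Icc] at hj
      refine ⟨hj.1, hj.2, ?_⟩
      rw [Finset.mem_Icc]
      omega
    rw [h2, hsum] at h1
    linarith

lemma Z_even {N m : ℕ} (hm : m ≤ N) (he : Even m) : Z N m := by
  obtain ⟨r, hr⟩ := he
  refine ⟨Finset.Icc 1 r ∪ Finset.Icc (N + 1 - r) N, ?_, ?_, ?_⟩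
  · intro j hj
    rw [Finset.mem_union, Finset.mem_Icc, Finset.mem_Icc] at hj
    rw [Finset.mem_Icc]
    omega
  · rw [Finset.card_union_of_disjoint]
    · simp only [Nat.card_Icc]
      omega
    · rw [Finset.disjoint_left]
      intro j h1 h2
      rw [Finset.mem_Icc] at h1 h2
      omega
  · apply symm_sum
    intro j hj
    rw [Finset.mem_union, Finset.mem_Icc, Finset.mem_Icc] at hj
    refine ⟨by omega, by omega, ?_⟩
    rw [Finset.mem_union, Finset.mem_Icc, Finset.mem_Icc]
    omega

lemma coset_sum (p q : ℕ) (hp : 1 < p) (hq : 0 < q) :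
    ∑ t ∈ Finset.range p, Real.cos (2 * Real.pi * (1 + t * q) / (p * q)) = 0 := by
  have hp0 : (p : ℂ) ≠ 0 := by
    have : p ≠ 0 := by omega
    exact_mod_cast this
  have hq0 : (q : ℂ) ≠ 0 := by
    have : q ≠ 0 := by omega
    exact_mod_cast this
  have hprim := Complex.isPrimitiveRoot_exp p (by omega)
  have hgeom := hprim.geom_sum_eq_zero hp
  have h1 : ∑ t ∈ Finset.range p, Complex.exp (((2 * Real.pi * (1 + t * q) / (p * q) : ℝ) : ℂ)
      * Complex.I) = 0 := by
    have : ∀ t ∈ Finset.range p, Complex.exp (((2 * Real.pi * (1 + t * q) / (p * q) : ℝ) : ℂ)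
      * Complex.I) = Complex.exp (2 * Real.pi * Complex.I / (p * q))
        * (Complex.exp (2 * Real.pi * Complex.I / p)) ^ t := by
      intro t _
      rw [← Complex.exp_nat_mul, ← Complex.exp_add]
      congr 1
      push_cast
      field_simp
    rw [Finset.sum_congr rfl this, ← Finset.mul_sum, hgeom, mul_zero]
  have h2 := congrArg Complex.re h1
  rw [Complex.re_sum] at h2
  simp only [Complex.exp_ofReal_mul_I_re, Complex.zero_re] at h2
  exact h2

lemma Z_large {m n : ℕ} (hm : Odd m) (hn : Odd n) (h1 : (m + n + 1).minFac ≤ m)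
    (h2 : (m + n + 1).minFac ≤ n) : Z (m + n) m := by
  set p := (m + n + 1).minFac with hp
  have hmpos := hm.pos
  have hpp : p.Prime := Nat.minFac_prime (by omega)
  obtain ⟨q, hq⟩ := Nat.minFac_dvd (m + n + 1)
  rw [← hp] at hq
  have hLodd : Odd (m + n + 1) := by
    have : Even (m + n) := hm.add_odd hn
    exact this.add_one
  have hpodd : Odd p := by
    rw [hq] at hLodd
    exact Nat.Odd.of_mul_left hLodd
  have hqodd : Odd q := by
    rw [hq] at hLodd
    exact Nat.Odd.of_mul_right hLodd
  have hp2 : 1 < p := hpp.one_lt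
  have hq1 : q ≠ 1 := by
    intro h
    rw [h] at hq
    omega
  have hq3 : 3 ≤ q := by
    obtain ⟨r, hr⟩ := hqodd
    omega
  obtain ⟨rm, hrm⟩ := hm
  obtain ⟨rn, hrn⟩ := hn
  obtain ⟨rp, hrp⟩ := hpodd
  -- the coset
  let f : ℕ → ℕ := fun t => if 2 * (1 + t * q) < m + n + 1 then 2 * (1 + t * q)
    else 2 * (m + n + 1) - 2 * (1 + t * q)
  have hbound : ∀ t < p, t * q + q ≤ m + n + 1 := by
    intro t ht
    have : (t + 1) * q ≤ p * q := Nat.mul_le_mul_right q ht
    rw [hq]
    linarith
  have hfinj : Set.InjOn f (Finset.range p) := by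
    intro t ht u hu htu
    simp only [Finset.coe_range, Set.mem_Iio] at ht hu
    have hbt := hbound t ht
    have hbu := hbound u hu
    have hcase : t * q = u * q ∨ 2 + t * q + u * q = m + n + 1 := by
      simp only [f] at htu
      split_ifs at htu <;> omega
    rcases hcase with h | h
    · exact Nat.eq_of_mul_eq_mul_right (by omega) h
    · exfalso
      have hdvd : q ∣ 2 := by
        have h3 : q ∣ m + n + 1 := ⟨p, by rw [hq]; ring⟩
        rw [← h] at h3
        have h4 : q ∣ 2 + (t + u) * q := by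
          have : 2 + t * q + u * q = 2 + (t + u) * q := by ring
          rwa [this] at h3
        exact (Nat.dvd_add_left (Dvd.intro_left (t + u) rfl)).mp h4
      have := Nat.le_of_dvd (by norm_num) hdvd
      omega
  have hfmem : ∀ t < p, 1 ≤ f t ∧ f t ≤ m + n ∧ Even (f t) := by
    intro t ht
    have hbt := hbound t ht
    simp only [f]
    split_ifs with hc
    · refine ⟨by omega, by omega, ⟨1 + t * q, by ring⟩⟩
    · refine ⟨by omega, by omega, ⟨(m + n + 1) - (1 + t * q), by omega⟩⟩
  let J1 : Finset ℕ := (Finset.range p).image f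
  have hJ1card : J1.card = p := by
    rw [Finset.card_image_of_injOn hfinj, Finset.card_range]
  let E : Finset ℕ := (Finset.range (rm + rn + 1)).image (fun i => 2 * (i + 1))
  have hEcard : E.card = rm + rn + 1 := by
    rw [Finset.card_image_of_injective, Finset.card_range]
    intro a b hab
    simp only at hab
    omega
  have hJ1E : J1 ⊆ E := by
    intro j hj
    simp only [J1, Finset.mem_image, Finset.mem_range] at hj
    obtain ⟨t, ht, rfl⟩ := hj
    obtain ⟨ha, hb, r, hr⟩ := hfmem t ht
    simp only [E, Finset.mem_image, Finset.mem_range]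
    exact ⟨r - 1, by omega, by omega⟩
  have hdiff : (E \ J1).card = rm + rn + 1 - p := by
    rw [Finset.card_sdiff_of_subset hJ1E, hEcard, hJ1card]
  obtain ⟨E', hE'sub, hE'card⟩ := Finset.exists_subset_card_eq
    (s := E \ J1) (n := rm - rp) (by rw [hdiff]; omega)
  have hE'mem : ∀ j ∈ E', 1 ≤ j ∧ j ≤ m + n ∧ Even j ∧ j ∉ J1 := by
    intro j hj
    have h3 := hE'sub hj
    rw [Finset.mem_sdiff] at h3
    obtain ⟨h4, h5⟩ := h3
    simp only [E, Finset.mem_image, Finset.mem_range] at h4
    obtain ⟨i, hi, rfl⟩ := h4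
    exact ⟨by omega, by omega, ⟨i + 1, by ring⟩, h5⟩
  have hdisj1 : Disjoint E' (E'.image (fun j => m + n + 1 - j)) := by
    rw [Finset.disjoint_left]
    intro j hj hj2
    rw [Finset.mem_image] at hj2
    obtain ⟨i, hi, hi2⟩ := hj2
    obtain ⟨_, _, ⟨a, ha⟩, _⟩ := hE'mem j hj
    obtain ⟨_, _, ⟨b, hb⟩, _⟩ := hE'mem i hi
    omega
  have hdisj2 : Disjoint J1 (E' ∪ E'.image (fun j => m + n + 1 - j)) := by
    rw [Finset.disjoint_left]
    intro j hj hj2
    rw [Finset.mem_union] at hj2
    rcases hj2 with hj2 | hj2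
    · exact (hE'mem j hj2).2.2.2 hj
    · rw [Finset.mem_image] at hj2
      obtain ⟨i, hi, hi2⟩ := hj2
      obtain ⟨_, _, ⟨b, hb⟩, _⟩ := hE'mem i hi
      simp only [J1, Finset.mem_image, Finset.mem_range] at hj
      obtain ⟨t, ht, rfl⟩ := hj
      obtain ⟨ha, hb, r, hr⟩ := hfmem t ht
      omega
  refine ⟨J1 ∪ (E' ∪ E'.image (fun j => m + n + 1 - j)), ?_, ?_, ?_⟩
  · intro j hj
    rw [Finset.mem_Icc]
    rw [Finset.mem_union, Finset.mem_union] at hj
    rcases hj with hj | hj | hj
    · simp only [J1, Finset.mem_image, Finset.mem_range] at hj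
      obtain ⟨t, ht, rfl⟩ := hj
      exact ⟨(hfmem t ht).1, (hfmem t ht).2.1⟩
    · exact ⟨(hE'mem j hj).1, (hE'mem j hj).2.1⟩
    · rw [Finset.mem_image] at hj
      obtain ⟨i, hi, hi2⟩ := hj
      have := hE'mem i hi
      omega
  · rw [Finset.card_union_of_disjoint hdisj2, Finset.card_union_of_disjoint hdisj1, hJ1card,
      Finset.card_image_of_injOn, hE'card]
    · omega
    · intro a ha b hb hab
      have h3 := hE'mem a ha
      have h4 := hE'mem b hb
      simp only at hab
      omega
  · rw [Finset.sum_union hdisj2]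
    have hsymm : ∑ j ∈ E' ∪ E'.image (fun j => m + n + 1 - j),
        Real.cos (Real.pi * j / (((m + n : ℕ) : ℝ) + 1)) = 0 := by
      apply symm_sum
      intro j hj
      rw [Finset.mem_union] at hj
      rcases hj with hj | hj
      · have h3 := hE'mem j hj
        refine ⟨h3.1, h3.2.1, ?_⟩
        rw [Finset.mem_union]
        right
        rw [Finset.mem_image]
        exact ⟨j, hj, rfl⟩
      · rw [Finset.mem_image] at hj
        obtain ⟨i, hi, hi2⟩ := hj
        have h3 := hE'mem i hi
        refine ⟨by omega, by omega, ?_⟩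
        rw [Finset.mem_union]
        left
        have : m + n + 1 - j = i := by omega
        rw [this]
        exact hi
    rw [hsymm, add_zero, Finset.sum_image hfinj]
    rw [← coset_sum p q hp2 (by omega)]
    apply Finset.sum_congr rfl
    intro t ht
    rw [Finset.mem_range] at ht
    have hbt := hbound t ht
    have hcastL : (((m + n : ℕ) : ℝ) + 1) = p * q := by
      have : ((m + n + 1 : ℕ) : ℝ) = ((p * q : ℕ) : ℝ) := by rw [hq]
      push_cast at this ⊢
      linarith
    have hL0 : ((p : ℝ) * q) ≠ 0 := by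
      rw [← hcastL]; positivity
    rw [hcastL]
    simp only [f]
    split_ifs with hc
    · congr 1
      push_cast
      ring
    · rw [Nat.cast_sub (by omega)]
      have hc2 : ((2 * (m + n + 1) : ℕ) : ℝ) = 2 * (p * q) := by
        push_cast at hcastL ⊢
        linarith
      rw [hc2]
      have : Real.pi * (2 * (p * q) - ((2 * (1 + t * q) : ℕ) : ℝ)) / (p * q)
          = 2 * Real.pi - 2 * Real.pi * (1 + t * q) / (p * q) := by
        push_cast
        field_simp
      rw [this, Real.cos_two_pi_sub]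

/-- Galois conjugation: vanishing of the cosine sum is inherited by all small odd multiples. -/
lemma conj_sum {N : ℕ} {J : Finset ℕ} (hJ : J ⊆ Finset.Icc 1 N)
    (hsum : ∑ j ∈ J, Real.cos (Real.pi * j / (N + 1)) = 0) {t : ℕ} (ht : Odd t)
    (htL : t < (N + 1).minFac) :
    ∑ j ∈ J, ((Complex.exp (2 * Real.pi * Complex.I / ((2 * (N + 1) : ℕ) : ℂ)) ^ j) ^ t
      + ((Complex.exp (2 * Real.pi * Complex.I / ((2 * (N + 1) : ℕ) : ℂ)) ^ j)⁻¹) ^ t) = 0 := by
  set ζ := Complex.exp (2 * Real.pi * Complex.I / ((2 * (N + 1) : ℕ) : ℂ)) with hζdef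
  have hζ : IsPrimitiveRoot ζ (2 * (N + 1)) := Complex.isPrimitiveRoot_exp _ (by omega)
  have hζ0 : ζ ≠ 0 := hζ.ne_zero (by omega)
  let f : Polynomial ℤ := ∑ j ∈ J, (Polynomial.X ^ j + Polynomial.X ^ (2 * (N + 1) - j))
  have haeval : ∀ u : ℕ, Polynomial.aeval (ζ ^ u) f = ∑ j ∈ J, ((ζ ^ j) ^ u + ((ζ ^ j)⁻¹) ^ u) := by
    intro u
    simp only [f, map_sum, map_add, map_pow, Polynomial.aeval_X]
    apply Finset.sum_congr rfl
    intro j hj
    have hj2 := Finset.mem_Icc.mp (hJ hj)
    congr 1
    · rw [← pow_mul, ← pow_mul, mul_comm]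
    · have h1 : (ζ ^ u) ^ (2 * (N + 1) - j) * (ζ ^ j) ^ u = 1 := by
        rw [← pow_mul, ← pow_mul, ← pow_add]
        have : u * (2 * (N + 1) - j) + j * u = 2 * (N + 1) * u := by
          have h3 : (2 * (N + 1) - j) + j = 2 * (N + 1) := by omega
          calc u * (2 * (N + 1) - j) + j * u = ((2 * (N + 1) - j) + j) * u := by ring
            _ = _ := by rw [h3]
        rw [this, pow_mul, hζ.pow_eq_one, one_pow]
      have h2 : (ζ ^ j) ^ u ≠ 0 := pow_ne_zero _ (pow_ne_zero _ hζ0)
      rw [inv_pow]
      exact eq_inv_of_mul_eq_one_left h1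
  have h1 : Polynomial.aeval ζ f = 0 := by
    have := haeval 1
    rw [pow_one] at this
    rw [this]
    have hcos : ∀ j ∈ J, (ζ ^ j) ^ 1 + ((ζ ^ j)⁻¹) ^ 1
        = 2 * ((Real.cos (Real.pi * j / (N + 1)) : ℝ) : ℂ) := by
      intro j _
      rw [pow_one, pow_one, hζdef, ← Complex.exp_nat_mul, ← Complex.exp_neg, Complex.ofReal_cos,
        Complex.cos]
      have hN : ((N : ℂ) + 1) ≠ 0 := by
        have : ((N + 1 : ℕ) : ℂ) ≠ 0 := by
          exact_mod_cast (Nat.succ_ne_zero N)
        push_cast at this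
        exact this
      have e1 : (j : ℂ) * (2 * Real.pi * Complex.I / ((2 * (N + 1) : ℕ) : ℂ))
          = ((Real.pi * j / (N + 1) : ℝ) : ℂ) * Complex.I := by
        push_cast
        field_simp
      rw [e1]
      ring_nf
    rw [Finset.sum_congr rfl hcos, ← Finset.mul_sum, ← Complex.ofReal_sum, hsum]
    simp
  have hint : IsIntegral ℤ ζ := hζ.isIntegral (by omega)
  have hdvd : minpoly ℤ ζ ∣ f := minpoly.isIntegrallyClosed_dvd hint h1
  have hcop : Nat.Coprime t (2 * (N + 1)) := by
    apply Nat.Coprime.mul_right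
    · rw [Nat.coprime_two_right]
      exact ht
    · apply Nat.coprime_of_dvd
      intro k hk hkt hkL
      have h3 : (N + 1).minFac ≤ k := Nat.minFac_le_of_dvd hk.two_le hkL
      have h4 : k ≤ t := Nat.le_of_dvd (Odd.pos ht) hkt
      omega
  rw [hζ.minpoly_eq_pow_coprime hcop] at hdvd
  obtain ⟨g, hg⟩ := hdvd
  have h2 : Polynomial.aeval (ζ ^ t) f = 0 := by
    rw [hg, map_mul, minpoly.aeval, zero_mul]
  rw [← haeval t]
  exact h2

lemma pow_identity (t k : ℕ) (hk : k ≤ t) :
    ∃ u : ℕ, u ≤ t ∧ (Odd t → Odd u) ∧ ∀ w : ℂ, w ≠ 0 →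
      w ^ k * (w⁻¹) ^ (t - k) + (w⁻¹) ^ k * w ^ (t - k) = w ^ u + (w⁻¹) ^ u := by
  by_cases h : t - k ≤ k
  · refine ⟨k - (t - k), by omega, ?_, ?_⟩
    · rintro ⟨r, hr⟩
      exact ⟨k - r - 1, by omega⟩
    · intro w hw
      have e : k = (k - (t - k)) + (t - k) := by omega
      have h1 : w ^ k = w ^ (k - (t - k)) * w ^ (t - k) := by
        rw [← pow_add, ← e]
      have h2 : (w⁻¹) ^ k = (w⁻¹) ^ (k - (t - k)) * (w⁻¹) ^ (t - k) := by
        rw [← pow_add, ← e]
      have h3 : w ^ (t - k) * (w⁻¹) ^ (t - k) = 1 := by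
        rw [← mul_pow, mul_inv_cancel₀ hw, one_pow]
      rw [h1, h2]
      calc w ^ (k - (t - k)) * w ^ (t - k) * w⁻¹ ^ (t - k)
            + w⁻¹ ^ (k - (t - k)) * w⁻¹ ^ (t - k) * w ^ (t - k)
          = w ^ (k - (t - k)) * (w ^ (t - k) * w⁻¹ ^ (t - k))
            + w⁻¹ ^ (k - (t - k)) * (w ^ (t - k) * w⁻¹ ^ (t - k)) := by ring
        _ = _ := by rw [h3]; ring
  · refine ⟨(t - k) - k, by omega, ?_, ?_⟩
    · rintro ⟨r, hr⟩
      exact ⟨r - k, by omega⟩
    · intro w hw
      have e : t - k = ((t - k) - k) + k := by omega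
      have h1 : w ^ (t - k) = w ^ ((t - k) - k) * w ^ k := by
        rw [← pow_add, ← e]
      have h2 : (w⁻¹) ^ (t - k) = (w⁻¹) ^ ((t - k) - k) * (w⁻¹) ^ k := by
        rw [← pow_add, ← e]
      have h3 : w ^ k * (w⁻¹) ^ k = 1 := by
        rw [← mul_pow, mul_inv_cancel₀ hw, one_pow]
      rw [h1, h2]
      calc w ^ k * (w⁻¹ ^ (t - k - k) * w⁻¹ ^ k) + w⁻¹ ^ k * (w ^ (t - k - k) * w ^ k)
          = w⁻¹ ^ (t - k - k) * (w ^ k * w⁻¹ ^ k) + w ^ (t - k - k) * (w ^ k * w⁻¹ ^ k) := by ring
        _ = _ := by rw [h3]; ring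

/-- Odd power sums of the numbers `z + 1/z` vanish if the odd power sums
`∑ (z^u + z^(-u))` vanish. -/
lemma odd_power_sums {J : Finset ℕ} (z : ℕ → ℂ) (hz : ∀ j, z j ≠ 0) {t : ℕ} (ht : Odd t)
    (h : ∀ u : ℕ, u ≤ t → Odd u → ∑ j ∈ J, ((z j) ^ u + ((z j)⁻¹) ^ u) = 0) :
    ∑ j ∈ J, (z j + (z j)⁻¹) ^ t = 0 := by
  have h2 : 2 * ∑ j ∈ J, (z j + (z j)⁻¹) ^ t = 0 := by
    calc 2 * ∑ j ∈ J, (z j + (z j)⁻¹) ^ t
        = ∑ j ∈ J, ((z j + (z j)⁻¹) ^ t + ((z j)⁻¹ + z j) ^ t) := by
          rw [Finset.mul_sum]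
          apply Finset.sum_congr rfl
          intro j _
          rw [add_comm (z j)⁻¹ (z j)]
          ring
      _ = ∑ j ∈ J, ∑ k ∈ Finset.range (t + 1), (t.choose k : ℂ) *
            ((z j) ^ k * ((z j)⁻¹) ^ (t - k) + ((z j)⁻¹) ^ k * (z j) ^ (t - k)) := by
          apply Finset.sum_congr rfl
          intro j _
          rw [add_pow, add_pow, ← Finset.sum_add_distrib]
          apply Finset.sum_congr rfl
          intro k _
          ring
      _ = ∑ k ∈ Finset.range (t + 1), (t.choose k : ℂ) * ∑ j ∈ J,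
            ((z j) ^ k * ((z j)⁻¹) ^ (t - k) + ((z j)⁻¹) ^ k * (z j) ^ (t - k)) := by
          rw [Finset.sum_comm]
          apply Finset.sum_congr rfl
          intro k _
          rw [Finset.mul_sum]
      _ = 0 := by
          apply Finset.sum_eq_zero
          intro k hk
          rw [Finset.mem_range] at hk
          obtain ⟨u, hu1, hu2, hu3⟩ := pow_identity t k (by omega)
          have : ∑ j ∈ J, ((z j) ^ k * ((z j)⁻¹) ^ (t - k) + ((z j)⁻¹) ^ k * (z j) ^ (t - k))
              = ∑ j ∈ J, ((z j) ^ u + ((z j)⁻¹) ^ u) :=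
            Finset.sum_congr rfl (fun j _ => hu3 (z j) (hz j))
          rw [this, h u hu1 (hu2 ht), mul_zero]
  have h3 : (2 : ℂ) ≠ 0 := two_ne_zero
  exact (mul_eq_zero.mp h2).resolve_left h3

/-- Newton: if an odd number `m` of complex numbers has vanishing odd power sums up to `m`
then one of them is zero. -/
lemma exists_zero_of_odd_psum {σ : Type} [Fintype σ] [DecidableEq σ] (x : σ → ℂ)
    (hodd : Odd (Fintype.card σ))
    (h : ∀ t : ℕ, Odd t → t ≤ Fintype.card σ → ∑ i, x i ^ t = 0) : ∃ i, x i = 0 := by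
  have key : ∀ k : ℕ, Odd k → k ≤ Fintype.card σ →
      MvPolynomial.eval x (MvPolynomial.esymm σ ℂ k) = 0 := by
    intro k
    induction k using Nat.strong_induction_on with
    | _ k ih =>
      intro hk hk2
      have hN := congrArg (MvPolynomial.eval x) (MvPolynomial.mul_esymm_eq_sum σ ℂ k)
      rw [map_mul, map_mul, map_sum, map_natCast] at hN
      have hzero : ∑ a ∈ Finset.HasAntidiagonal.antidiagonal k with a.1 < k,
          MvPolynomial.eval x ((-1) ^ a.1 * MvPolynomial.esymm σ ℂ a.1
            * MvPolynomial.psum σ ℂ a.2) = 0 := by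
        apply Finset.sum_eq_zero
        intro a ha
        rw [Finset.mem_filter, Finset.HasAntidiagonal.mem_antidiagonal] at ha
        obtain ⟨ha1, ha2⟩ := ha
        rw [map_mul, map_mul]
        rcases Nat.even_or_odd a.2 with he | ho
        · have ho1 : Odd a.1 := by
            rw [← ha1] at hk
            exact (Nat.odd_add.mp hk).mpr he
          rw [ih a.1 ha2 ho1 (by omega), mul_zero, zero_mul]
        · have : MvPolynomial.eval x (MvPolynomial.psum σ ℂ a.2) = 0 := by
            simp only [MvPolynomial.psum, map_sum, map_pow, MvPolynomial.eval_X]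
            exact h a.2 ho (by omega)
          rw [this, mul_zero]
      rw [hzero, mul_zero] at hN
      have hk0 : (k : ℂ) ≠ 0 := by
        have : k ≠ 0 := by
          obtain ⟨r, hr⟩ := hk
          omega
        exact_mod_cast this
      exact (mul_eq_zero.mp hN).resolve_left hk0
  have hlast := key (Fintype.card σ) hodd le_rfl
  have hprod : MvPolynomial.eval x (MvPolynomial.esymm σ ℂ (Fintype.card σ)) = ∏ i, x i := by
    simp only [MvPolynomial.esymm, ← Finset.card_univ, Finset.powersetCard_self,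
      Finset.sum_singleton, map_prod, MvPolynomial.eval_X]
  rw [hprod, Finset.prod_eq_zero_iff] at hlast
  obtain ⟨i, _, hi⟩ := hlast
  exact ⟨i, hi⟩

lemma not_Z {N m : ℕ} (hm : Odd m) (hL : Odd (N + 1)) (hlt : m < (N + 1).minFac) :
    ¬ Z N m := by
  rintro ⟨J, hJ, hcard, hsum⟩
  set ζ := Complex.exp (2 * Real.pi * Complex.I / ((2 * (N + 1) : ℕ) : ℂ)) with hζdef
  have hζ : IsPrimitiveRoot ζ (2 * (N + 1)) := Complex.isPrimitiveRoot_exp _ (by omega)
  have hζ0 : ζ ≠ 0 := hζ.ne_zero (by omega)
  have hpow : ∀ t : ℕ, Odd t → t ≤ m → ∑ j ∈ J, (ζ ^ j + (ζ ^ j)⁻¹) ^ t = 0 := by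
    intro t ht htm
    apply odd_power_sums (fun j => ζ ^ j) (fun j => pow_ne_zero _ hζ0) ht
    intro u hu huo
    exact conj_sum hJ hsum huo (by omega)
  have hcardJ : Fintype.card J = m := by rw [Fintype.card_coe, hcard]
  obtain ⟨⟨j, hj⟩, hzero⟩ := exists_zero_of_odd_psum (σ := J) (fun j => ζ ^ (j : ℕ) + (ζ ^ (j : ℕ))⁻¹)
    (by rw [hcardJ]; exact hm)
    (by
      intro t ht htm
      rw [hcardJ] at htm
      rw [← hpow t ht htm]
      exact Finset.sum_coe_sort J (fun j => (ζ ^ j + (ζ ^ j)⁻¹) ^ t))
  simp only at hzero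
  have hzj : ζ ^ j ≠ 0 := pow_ne_zero _ hζ0
  have h1 : ζ ^ j * ζ ^ j = -1 := by
    have h0 : ζ ^ j * (ζ ^ j + (ζ ^ j)⁻¹) = 0 := by rw [hzero, mul_zero]
    rw [mul_add, mul_inv_cancel₀ hzj] at h0
    linear_combination h0
  have h2 : ζ ^ (4 * j) = 1 := by
    have : ζ ^ (4 * j) = (ζ ^ j * ζ ^ j) * (ζ ^ j * ζ ^ j) := by ring
    rw [this, h1]
    norm_num
  have h3 : 2 * (N + 1) ∣ 4 * j := hζ.dvd_of_pow_eq_one _ h2
  have hj2 := Finset.mem_Icc.mp (hJ hj)
  have h4 : (N + 1) ∣ 2 * j := by
    have : 2 * (N + 1) ∣ 2 * (2 * j) := by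
      have e : 2 * (2 * j) = 4 * j := by ring
      rw [e]; exact h3
    exact Nat.dvd_of_mul_dvd_mul_left (by norm_num) this
  have h5 : (N + 1) ∣ j := by
    apply Nat.Coprime.dvd_of_dvd_mul_left _ h4
    rw [Nat.coprime_two_right]
    exact hL
  have := Nat.le_of_dvd (by omega) h5
  omega

/-- **Theorem.** For positive integers `m, n` the real adjacency matrix of the Hasse diagram of
`L(m,n)` is nonsingular if and only if `m` and `n` are both odd and `min m n` is smaller than the
least prime factor of `m + n + 1`. -/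
theorem result : ∀ m n : ℕ, 1 ≤ m → 1 ≤ n →
    ((adjL m n).det ≠ 0 ↔ Odd m ∧ Odd n ∧ min m n < (m + n + 1).minFac) := by
  intro m n hm1 hn1
  have hiff : (adjL m n).det = 0 ↔ Z (m + n) m := det_eq_zero_iff.trans exists_sum_iff_Z
  rw [Ne, hiff]
  constructor
  · intro hZ
    have hmo : Odd m := by
      rw [← Nat.not_even_iff_odd]
      intro he
      exact hZ (Z_even (by omega) he)
    have hno : Odd n := by
      rw [← Nat.not_even_iff_odd]
      intro he
      apply hZ
      have := Z_compl (N := m + n) (m := n) (Z_even (by omega) he)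
      rwa [Nat.add_sub_cancel] at this
    refine ⟨hmo, hno, ?_⟩
    by_contra hcon
    rw [not_lt] at hcon
    exact hZ (Z_large hmo hno (le_trans hcon (min_le_left _ _)) (le_trans hcon (min_le_right _ _)))
  · rintro ⟨hmo, hno, hlt⟩ hZ
    have hL : Odd (m + n + 1) := (hmo.add_odd hno).add_one
    rcases min_lt_iff.mp hlt with h | h
    · exact not_Z hmo hL h hZ
    · have hZ2 := Z_compl (N := m + n) (m := m) hZ
      rw [Nat.add_sub_cancel_left] at hZ2
      exact not_Z hno hL h hZ2

end Pool.Agent.Results.MP_34e3ac_co.Nonsingular
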